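import Mathlib

/-! # The abstract counter -/

set_option autoImplicit false

namespace Helper97_BR

/-- `Path R n s t`: a chain of `n` steps of the relation `R` from `s` to `t`. -/
inductive Path {α : Type} (R : α → α → Prop) : ℕ → α → α → Prop
  | nil (s : α) : Path R 0 s s
  | cons {n : ℕ} {s t u : α} : R s t → Path R n t u → Path R (n + 1) s u

theorem Path.append {α : Type} {R : α → α → Prop} {m n : ℕ} {s t u : α}
    (h : Path R m s t) (h' : Path R n t u) : Path R (m + n) s u := by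
  induction h with
  | nil s => simpa using h'
  | cons h1 _ ih =>
    have := Path.cons h1 (ih h')
    rwa [show ∀ a b : ℕ, a + 1 + b = a + b + 1 by intros; omega]

theorem Path.single {α : Type} {R : α → α → Prop} {s t : α} (h : R s t) : Path R 1 s t :=
  Path.cons h (Path.nil t)

theorem Path.toFun {α : Type} {R : α → α → Prop} {n : ℕ} {s t : α} (h : Path R n s t) :
    ∃ p : ℕ → α, p 0 = s ∧ ∀ k < n, R (p k) (p (k + 1)) := by
  induction h with
  | nil s => exact ⟨fun _ => s, rfl, fun k hk => absurd hk (by omega)⟩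
  | @cons n s t u h1 _ ih =>
    obtain ⟨p, hp0, hp⟩ := ih
    refine ⟨fun k => if k = 0 then s else p (k - 1), by simp, ?_⟩
    intro k hk
    rcases Nat.eq_zero_or_pos k with rfl | hk0
    · simpa [hp0] using h1
    · have := hp (k - 1) (by omega)
      rw [show k - 1 + 1 = k by omega] at this
      simpa [show k ≠ 0 by omega] using this

/-- bits: `σ k 0` output agent, `σ k 1` anticopy, `σ k 2` copy -/
abbrev Bits := ℕ → Fin 3 → Bool

/-- flip one bit -/
def flip (σ : Bits) (k : ℕ) (r : Fin 3) : Bits :=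
  fun k' r' => if k' = k ∧ r' = r then !(σ k r) else σ k' r'

/-- when the bit `(k, r)` may be flipped -/
def Can (σ : Bits) (k : ℕ) (r : Fin 3) : Prop :=
  (r = 0 ∧ ((σ k 0 = false ∧ (σ k 1 = true ∨ σ k 2 = true)) ∨
      (σ k 0 = true ∧ σ k 1 = false ∧ σ k 2 = false))) ∨
  (r = 1 ∧ 1 ≤ k ∧ σ k 1 = σ (k - 1) 0) ∨
  (r = 2 ∧ 1 ≤ k ∧ σ k 2 ≠ σ (k - 1) 0)

/-- one step of the counter with levels `0, …, K` -/
def Step (K : ℕ) (σ τ : Bits) : Prop := ∃ k r, k ≤ K ∧ Can σ k r ∧ τ = flip σ k r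

/-- levels above `k` are at rest -/
def Rest (K k : ℕ) (σ : Bits) : Prop :=
  ∀ j, k < j → j ≤ K → σ j 0 = true ∧ σ j 1 = !(σ (j - 1) 0) ∧ σ j 2 = σ (j - 1) 0

theorem bigFlip (K : ℕ) : ∀ (d k : ℕ), k + d = K → ∀ σ : Bits, Rest K k σ → Can σ k 0 →
    ∃ n τ, 2 ^ d ≤ n ∧ Path (Step K) n σ τ ∧ Rest K k τ ∧ τ k 0 = !(σ k 0) ∧
      ∀ j r, (j < k ∨ (j = k ∧ r ≠ 0)) → τ j r = σ j r := by
  intro d
  induction d with
  | zero =>
    intro k hk σ hR hC
    refine ⟨1, flip σ k 0, by simp, Path.single ⟨k, 0, by omega, hC, rfl⟩, ?_, by simp [flip], ?_⟩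
    · intro j hj hjK; omega
    · intro j r h
      rcases h with h | ⟨h, h'⟩
      · simp [flip, show j ≠ k by omega]
      · simp [flip, h, h']
  | succ d ih =>
    intro k hk σ hR hC
    obtain ⟨r0, r1, r2⟩ := hR (k + 1) (by omega) (by omega)
    simp only [Nat.add_sub_cancel] at r1 r2
    -- first flip
    set σ1 := flip σ k 0 with hσ1
    have e1 : ∀ j r, ¬ (j = k ∧ r = 0) → σ1 j r = σ j r := by
      intro j r h; simp only [hσ1, flip, if_neg h]
    have e1' : σ1 k 0 = !(σ k 0) := by simp [hσ1, flip]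
    have p1 : Path (Step K) 1 σ σ1 := Path.single ⟨k, 0, by omega, hC, rfl⟩
    -- which of the two children goes down first
    -- if the new value is `true`, then child 1 goes down first, otherwise child 2
    obtain ⟨a, b, hab, ha0, hb0, hdown, hup⟩ : ∃ a b : Fin 3, ((a = 1 ∧ b = 2) ∨ (a = 2 ∧ b = 1)) ∧
        a ≠ 0 ∧ b ≠ 0 ∧ (σ (k + 1) a = true ∧ (∀ τ : Bits, τ k 0 = !(σ k 0) →
          τ (k + 1) a = true → Can τ (k + 1) a)) ∧
        (σ (k + 1) b = false ∧ (∀ τ : Bits, τ k 0 = !(σ k 0) →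
          τ (k + 1) b = false → Can τ (k + 1) b)) := by
      cases hb : σ k 0 with
      | false =>
        refine ⟨1, 2, Or.inl ⟨rfl, rfl⟩, by decide, by decide, ⟨by rw [r1, hb]; rfl, ?_⟩,
          ⟨by rw [r2, hb], ?_⟩⟩
        · intro τ h1 h2
          exact Or.inr (Or.inl ⟨rfl, by omega, by simp [h1, h2]⟩)
        · intro τ h1 h2
          exact Or.inr (Or.inr ⟨rfl, by omega, by simp [h1, h2]⟩)
      | true =>
        refine ⟨2, 1, Or.inr ⟨rfl, rfl⟩, by decide, by decide, ⟨by rw [r2, hb], ?_⟩,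
          ⟨by rw [r1, hb]; rfl, ?_⟩⟩
        · intro τ h1 h2
          exact Or.inr (Or.inr ⟨rfl, by omega, by simp [h1, h2]⟩)
        · intro τ h1 h2
          exact Or.inr (Or.inl ⟨rfl, by omega, by simp [h1, h2]⟩)
    have hab' : a ≠ b := by rcases hab with ⟨h, h'⟩ | ⟨h, h'⟩ <;> rw [h, h'] <;> decide
    -- second flip: child a goes down
    set σ2 := flip σ1 (k + 1) a with hσ2
    have e2 : ∀ j r, ¬ (j = k + 1 ∧ r = a) → σ2 j r = σ1 j r := by
      intro j r h; simp only [hσ2, flip, if_neg h]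
    have s1a : σ1 (k + 1) a = true := by rw [e1 _ _ (by simp)]; exact hdown.1
    have e2' : σ2 (k + 1) a = false := by simp [hσ2, flip, s1a]
    have p2 : Path (Step K) 1 σ1 σ2 :=
      Path.single ⟨k + 1, a, by omega, hdown.2 _ e1' s1a, rfl⟩
    have s2b : σ2 (k + 1) b = false := by
      rw [e2 _ _ (by simp [Ne.symm hab']), e1 _ _ (by simp)]; exact hup.1
    have s20 : σ2 (k + 1) 0 = true := by
      rw [e2 _ _ (by simp [Ne.symm ha0]), e1 _ _ (by simp)]; exact r0
    have both : ∀ τ : Bits, τ (k + 1) a = false → τ (k + 1) b = false →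
        τ (k + 1) 1 = false ∧ τ (k + 1) 2 = false := by
      intro τ h1 h2
      rcases hab with ⟨h, h'⟩ | ⟨h, h'⟩
      · rw [h] at h1; rw [h'] at h2; exact ⟨h1, h2⟩
      · rw [h] at h1; rw [h'] at h2; exact ⟨h2, h1⟩
    have R2 : Rest K (k + 1) σ2 := by
      intro j hj hjK
      obtain ⟨x0, x1, x2⟩ := hR j (by omega) hjK
      have q : ∀ j' r, k + 1 < j' → σ2 j' r = σ j' r := by
        intro j' r h
        rw [e2 _ _ (by rintro ⟨h1, _⟩; omega), e1 _ _ (by rintro ⟨h1, _⟩; omega)]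
      have q0 : σ2 (j - 1) 0 = σ (j - 1) 0 := by
        rcases eq_or_ne (j - 1) (k + 1) with h | h
        · rw [h, s20, r0]
        · exact q _ _ (by omega)
      rw [q _ _ hj, q _ _ hj, q _ _ hj, q0]
      exact ⟨x0, x1, x2⟩
    have C2 : Can σ2 (k + 1) 0 :=
      Or.inl ⟨rfl, Or.inr ⟨s20, (both _ e2' s2b).1, (both _ e2' s2b).2⟩⟩
    obtain ⟨n3, σ3, hn3, p3, R3, v3, a3⟩ := ih (k + 1) (by omega) σ2 R2 C2
    have v3' : σ3 (k + 1) 0 = false := by rw [v3, s20]; rfl
    have k3 : σ3 k 0 = !(σ k 0) := by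
      rw [a3 _ _ (Or.inl (by omega)), e2 _ _ (by rintro ⟨h1, _⟩; omega)]; exact e1'
    have s3b : σ3 (k + 1) b = false := by rw [a3 _ _ (Or.inr ⟨rfl, hb0⟩)]; exact s2b
    have s3a : σ3 (k + 1) a = false := by rw [a3 _ _ (Or.inr ⟨rfl, ha0⟩)]; exact e2'
    -- fourth: child b goes up
    set σ4 := flip σ3 (k + 1) b with hσ4
    have e4 : ∀ j r, ¬ (j = k + 1 ∧ r = b) → σ4 j r = σ3 j r := by
      intro j r h; simp only [hσ4, flip, if_neg h]
    have e4' : σ4 (k + 1) b = true := by simp [hσ4, flip, s3b]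
    have p4 : Path (Step K) 1 σ3 σ4 :=
      Path.single ⟨k + 1, b, by omega, hup.2 _ k3 s3b, rfl⟩
    have s40 : σ4 (k + 1) 0 = false := by rw [e4 _ _ (by simp [Ne.symm hb0])]; exact v3'
    have s4a : σ4 (k + 1) a = false := by rw [e4 _ _ (by simp [hab'])]; exact s3a
    have R4 : Rest K (k + 1) σ4 := by
      intro j hj hjK
      obtain ⟨x0, x1, x2⟩ := R3 j hj hjK
      have q : ∀ j' r, k + 1 < j' → σ4 j' r = σ3 j' r := by
        intro j' r h
        rw [e4 _ _ (by rintro ⟨h1, _⟩; omega)]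
      have q0 : σ4 (j - 1) 0 = σ3 (j - 1) 0 := by
        rw [e4 _ _ (by rintro ⟨_, h1⟩; exact hb0 h1.symm)]
      rw [q _ _ hj, q _ _ hj, q _ _ hj, q0]
      exact ⟨x0, x1, x2⟩
    have C4 : Can σ4 (k + 1) 0 := by
      refine Or.inl ⟨rfl, Or.inl ⟨s40, ?_⟩⟩
      rcases hab with ⟨_, h'⟩ | ⟨_, h'⟩
      · right; rw [h'] at e4'; exact e4'
      · left; rw [h'] at e4'; exact e4'
    obtain ⟨n5, σ5, hn5, p5, R5, v5, a5⟩ := ih (k + 1) (by omega) σ4 R4 C4
    have v5' : σ5 (k + 1) 0 = true := by rw [v5, s40]; rfl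
    have k5 : σ5 k 0 = !(σ k 0) := by
      rw [a5 _ _ (Or.inl (by omega)), e4 _ _ (by rintro ⟨h1, _⟩; omega)]; exact k3
    have s5a : σ5 (k + 1) a = false := by rw [a5 _ _ (Or.inr ⟨rfl, ha0⟩)]; exact s4a
    have s5b : σ5 (k + 1) b = true := by rw [a5 _ _ (Or.inr ⟨rfl, hb0⟩)]; exact e4'
    refine ⟨1 + (1 + (n3 + (1 + n5))), σ5, ?_, p1.append (p2.append (p3.append (p4.append p5))),
      ?_, k5, ?_⟩
    · rw [pow_succ]; omega
    · intro j hj hjK
      rcases eq_or_ne j (k + 1) with h | h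
      · subst h
        simp only [Nat.add_sub_cancel]
        refine ⟨v5', ?_⟩
        rcases hab with ⟨h, h'⟩ | ⟨h, h'⟩
        · -- a = 1, b = 2 : new value true
          have hk0 : σ k 0 = false := by
            have := hdown.1; rw [h, r1] at this
            cases hh : σ k 0 <;> simp_all
          rw [h] at s5a; rw [h'] at s5b
          rw [s5a, s5b, k5, hk0]; exact ⟨rfl, rfl⟩
        · have hk0 : σ k 0 = true := by
            have := hdown.1; rw [h, r2] at this; exact this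
          rw [h] at s5a; rw [h'] at s5b
          rw [s5a, s5b, k5, hk0]; exact ⟨rfl, rfl⟩
      · exact R5 j (by omega) hjK
    · intro j r h
      have hj : j < k + 1 := by rcases h with h | ⟨h, _⟩ <;> omega
      have hne : ¬ (j = k ∧ r = 0) := by
        rintro ⟨h1, h2⟩
        rcases h with h | ⟨_, h'⟩
        · omega
        · exact h' h2
      rw [a5 _ _ (Or.inl hj), e4 _ _ (by rintro ⟨h1, _⟩; omega), a3 _ _ (Or.inl hj),
        e2 _ _ (by rintro ⟨h1, _⟩; omega), e1 _ _ hne]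

/-- The counter with levels `0, …, K` has a path of length at least `2 ^ K`. -/
theorem exists_path (K : ℕ) : ∃ n σ τ, 2 ^ K ≤ n ∧ Path (Step K) n σ τ := by
  let σ : Bits := fun k r => if k = 0 then (r == 2) else
    if r = 0 then true else if r = 1 then (k == 1) else !(k == 1)
  have hR : Rest K 0 σ := by
    intro j hj _
    have h0 : j ≠ 0 := by omega
    rcases eq_or_ne j 1 with h | h
    · subst h
      refine ⟨by simp [σ], by simp [σ], by simp [σ]⟩
    · have h1 : j - 1 ≠ 0 := by omega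
      refine ⟨by simp [σ, h0], by simp [σ, h0, h, h1], by simp [σ, h0, h, h1]⟩
  have hC : Can σ 0 0 := Or.inl ⟨rfl, Or.inl ⟨by simp [σ], Or.inr (by simp [σ])⟩⟩
  obtain ⟨n, τ, h1, h2, -⟩ := bigFlip K K 0 (by omega) σ hR hC
  exact ⟨n, σ, τ, h1, h2⟩

end Helper97_BR
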