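import Pool.Agent.Helper97_BR.Defs
import Pool.Agent.Helper97_BR.Path

/-! # The instances -/

set_option autoImplicit false

namespace Helper97_BR

open Finset

section general
variable {U H : Type} [Fintype U] [DecidableEq U] [DecidableEq H]

/-- the number of other agents on a site -/
def oth (S : U → Finset H) (j : U) (i : H) : ℕ := (univ.filter fun k => k ≠ j ∧ i ∈ S k).card

/-- the value of a strategy against the others -/
noncomputable def val (I : Inst U H) (S : U → Finset H) (j : U) (t : Finset H) : ℝ :=
  ∑ i ∈ t, I.q i / ((oth S j i : ℝ) + 1)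

theorem load_update (S : U → Finset H) (j : U) (t : Finset H) (i : H) (hi : i ∈ t) :
    load (Function.update S j t) i = oth S j i + 1 := by
  unfold load oth
  have : (univ.filter fun k => i ∈ Function.update S j t k) =
      insert j (univ.filter fun k => k ≠ j ∧ i ∈ S k) := by
    ext k
    simp only [mem_filter, mem_univ, true_and, mem_insert]
    rcases eq_or_ne k j with h | h
    · subst h; simp [hi]
    · simp [h]
  rw [this, card_insert_of_notMem (by simp)]

theorem payoff_update (I : Inst U H) (S : U → Finset H) (j : U) (t : Finset H) :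
    payoff I (Function.update S j t) j = val I S j t := by
  unfold payoff val
  rw [Function.update_self]
  refine sum_congr rfl fun i hi => ?_
  rw [load_update S j t i hi]
  push_cast
  rfl

theorem payoff_self (I : Inst U H) (S : U → Finset H) (j : U) :
    payoff I S j = val I S j (S j) := by
  rw [← payoff_update, Function.update_eq_self]

theorem val_mono (I : Inst U H) (S : U → Finset H) (j : U) {t t' : Finset H} (h : t ⊆ t') :
    val I S j t ≤ val I S j t' := by
  unfold val
  refine sum_le_sum_of_subset_of_nonneg h fun i _ _ => ?_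
  have := I.q_pos i
  positivity

theorem brMove_of (I : Inst U H) (S : U → Finset H) (j : U) (s : Finset H)
    (hs : Feasible I j s)
    (h : ∀ t, Feasible I j t → t ⊆ s ∨ t ⊆ S j) (hlt : val I S j (S j) < val I S j s) :
    BRMove I S (Function.update S j s) := by
  refine ⟨j, s, hs, rfl, ?_, ?_⟩
  · intro t ht
    rw [payoff_update, payoff_update]
    rcases h t ht with h1 | h1
    · exact val_mono I S j h1
    · exact (val_mono I S j h1).trans hlt.le
  · rw [payoff_self, payoff_update]; exact hlt

theorem oth_zero (S : U → Finset H) (j : U) (i : H) (h : ∀ k, k ≠ j → i ∉ S k) :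
    oth S j i = 0 := by
  unfold oth
  rw [card_eq_zero, filter_eq_empty_iff]
  rintro k - ⟨h1, h2⟩
  exact h k h1 h2

theorem one_le_oth (S : U → Finset H) (j : U) (i : H) (k : U) (h : k ≠ j) (h' : i ∈ S k) :
    1 ≤ oth S j i := by
  unfold oth
  exact card_pos.2 ⟨k, by simp [h, h']⟩

theorem w_le (I : Inst U H) (S : U → Finset H) (j : U) (i : H) :
    I.q i / ((oth S j i : ℝ) + 1) ≤ I.q i := by
  have := I.q_pos i
  exact div_le_self this.le (by linarith [Nat.cast_nonneg (α := ℝ) (oth S j i)])

theorem w_pos (I : Inst U H) (S : U → Finset H) (j : U) (i : H) :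
    0 < I.q i / ((oth S j i : ℝ) + 1) := by
  have := I.q_pos i
  positivity

theorem w_half (I : Inst U H) (S : U → Finset H) (j : U) (i : H) (h : 1 ≤ oth S j i) :
    I.q i / ((oth S j i : ℝ) + 1) ≤ I.q i / 2 := by
  have := I.q_pos i
  have h' : (1 : ℝ) ≤ oth S j i := by exact_mod_cast h
  exact div_le_div_of_nonneg_left this.le (by norm_num) (by linarith)

theorem w_zero (I : Inst U H) (S : U → Finset H) (j : U) (i : H) (h : oth S j i = 0) :
    I.q i / ((oth S j i : ℝ) + 1) = I.q i := by
  rw [h]; simp

end general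

/-! ## The instance with levels `0, …, K` -/

/-- agents -/
abbrev Ag (K : ℕ) : Type := Fin (K + 1) × Fin 3

/-- sites -/
abbrev Si (K : ℕ) : Type := Fin (K + 2) × Fin 6

variable {K : ℕ}

/-- the expensive site of an agent -/
def sX (j : Ag K) : Si K := (j.1.castSucc, Fin.castLE (by norm_num) j.2)

/-- the cheap sites of an agent -/
def sY (j : Ag K) : Finset (Si K) :=
  if j.2 = 0 then {(j.1.succ, 3), (j.1.succ, 2), (j.1.castSucc, 4)}
  else if j.2 = 1 then {(j.1.castSucc, 3), (j.1.castSucc, 0)}
  else {(j.1.castSucc, 0), (j.1.castSucc, 5)}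

/-- coefficients of the query rates -/
noncomputable def qc (t : Fin 6) : ℝ :=
  if t = 0 then 1 else if t = 1 then 15 / 4 else if t = 2 then 5 else if t = 3 then 5
  else if t = 4 then 1 / 2 else 5 / 2

theorem qc_pos (t : Fin 6) : 0 < qc t := by
  unfold qc; split_ifs <;> norm_num

/-- costs -/
noncomputable def cc (i : Si K) : ℝ :=
  if i.2 = 0 then 3 * ((K : ℝ) + 2 - i.1.val) else
  if i.2 = 1 then 3 * ((K : ℝ) + 2 - i.1.val) + 1 else
  if i.2 = 2 then 3 * ((K : ℝ) + 2 - i.1.val) + 1 else 1

theorem cc_pos (i : Si K) : 0 < cc i := by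
  have h : (i.1.val : ℝ) ≤ (K : ℝ) + 1 := by
    have := i.1.2
    have h2 : i.1.val ≤ K + 1 := by omega
    exact_mod_cast h2
  unfold cc; split_ifs <;> linarith

variable (K) in
/-- the instance -/
noncomputable def inst : Inst (Ag K) (Si K) where
  adj i j := i = sX j ∨ i ∈ sY j
  q i := qc i.2 * (1 / 32) ^ i.1.val
  cost := cc
  budget j := cc (sX j)
  q_pos i := mul_pos (qc_pos _) (by positivity)
  cost_pos := cc_pos
  budget_pos j := cc_pos _

theorem sX_notMem (j : Ag K) : sX j ∉ sY j := by
  obtain ⟨k, r⟩ := j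
  fin_cases r <;> simp [sX, sY, Prod.ext_iff, Fin.ext_iff]

theorem feas_X (j : Ag K) : Feasible (inst K) j {sX j} := by
  refine ⟨?_, ?_⟩
  · intro i hi
    exact Or.inl (by simpa using hi)
  · simp [inst]

theorem feas_Y (j : Ag K) : Feasible (inst K) j (sY j) := by
  refine ⟨fun i hi => Or.inr hi, ?_⟩
  obtain ⟨k, r⟩ := j
  fin_cases r
  · simp only [sY, inst, sX]
    simp only [Fin.zero_eta, if_true]
    rw [sum_insert (by simp [Prod.ext_iff, Fin.ext_iff]),
      sum_insert (by simp [Prod.ext_iff, Fin.ext_iff]), sum_singleton]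
    simp [cc, Fin.ext_iff]
    linarith
  · simp only [sY, inst, sX]
    rw [if_neg (by simp), if_pos (by simp)]
    rw [sum_insert (by simp [Prod.ext_iff, Fin.ext_iff]), sum_singleton]
    simp [cc, Fin.ext_iff]
    linarith
  · simp only [sY, inst, sX]
    rw [if_neg (by simp), if_neg (by simp)]
    rw [sum_insert (by simp [Prod.ext_iff, Fin.ext_iff]), sum_singleton]
    simp [cc, Fin.ext_iff]

theorem feas_cases (j : Ag K) (t : Finset (Si K)) (h : Feasible (inst K) j t) :
    t ⊆ {sX j} ∨ t ⊆ sY j := by
  by_cases hx : sX j ∈ t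
  · left
    intro i hi
    by_contra hne
    have hne' : i ≠ sX j := by simpa using hne
    have h2 : ∑ x ∈ ({sX j, i} : Finset (Si K)), (inst K).cost x ≤ ∑ x ∈ t, (inst K).cost x := by
      refine sum_le_sum_of_subset_of_nonneg ?_ fun x _ _ => ((inst K).cost_pos x).le
      intro x hx'
      simp only [mem_insert, mem_singleton] at hx'
      rcases hx' with rfl | rfl
      · exact hx
      · exact hi
    rw [sum_insert (by simpa using Ne.symm hne'), sum_singleton] at h2
    have h3 := h.2
    have h4 := (inst K).cost_pos i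
    have h5 : (inst K).budget j = (inst K).cost (sX j) := rfl
    linarith
  · right
    intro i hi
    rcases h.1 i hi with h1 | h1
    · exact absurd (h1 ▸ hi) hx
    · exact h1

/-- the state given by bits -/
def st (K : ℕ) (σ : Bits) : Ag K → Finset (Si K) :=
  fun j => if σ j.1.val j.2 = true then sY j else {sX j}

theorem isState_st (σ : Bits) : IsState (inst K) (st K σ) := by
  intro j
  unfold st
  split_ifs
  · exact feas_Y j
  · exact feas_X j

theorem st_flip (σ : Bits) (k : Fin (K + 1)) (r : Fin 3) :
    st K (flip σ k.val r) = Function.update (st K σ) (k, r)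
      (if σ k.val r = true then {sX (k, r)} else sY (k, r)) := by
  funext j
  obtain ⟨k', r'⟩ := j
  by_cases h : (k', r') = (k, r)
  · rw [h, Function.update_self]
    unfold st flip
    cases hh : σ k.val r <;> simp [hh]
  · rw [Function.update_of_ne h]
    unfold st flip
    have : ¬ (k'.val = k.val ∧ r' = r) := by
      rintro ⟨h1, h2⟩
      exact h (by rw [h2, Fin.ext h1])
    simp [this]

theorem br_up (σ : Bits) (k : Fin (K + 1)) (r : Fin 3) (hσ : σ k.val r = false)
    (h : val (inst K) (st K σ) (k, r) {sX (k, r)} < val (inst K) (st K σ) (k, r) (sY (k, r))) :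
    BRMove (inst K) (st K σ) (st K (flip σ k.val r)) := by
  rw [st_flip, if_neg (by simp [hσ])]
  have e : st K σ (k, r) = {sX (k, r)} := by simp [st, hσ]
  refine brMove_of _ _ _ _ (feas_Y _) ?_ (by rw [e]; exact h)
  intro t ht
  rw [e]
  exact (feas_cases _ t ht).symm

theorem br_down (σ : Bits) (k : Fin (K + 1)) (r : Fin 3) (hσ : σ k.val r = true)
    (h : val (inst K) (st K σ) (k, r) (sY (k, r)) < val (inst K) (st K σ) (k, r) {sX (k, r)}) :
    BRMove (inst K) (st K σ) (st K (flip σ k.val r)) := by
  rw [st_flip, if_pos hσ]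
  have e : st K σ (k, r) = sY (k, r) := by simp [st, hσ]
  refine brMove_of _ _ _ _ (feas_X _) ?_ (by rw [e]; exact h)
  intro t ht
  rw [e]
  exact feas_cases _ t ht

end Helper97_BR
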