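import Mathlib

/-! # Budgeted sharing games and best-response paths -/

set_option autoImplicit false

namespace Helper97_BR

/-- An instance of the budgeted sharing game with agents `U` and sites `H`. -/
structure Inst (U H : Type) where
  /-- `adj i j`: agent `j` is interested in site `i` -/
  adj : H → U → Prop
  /-- query rates -/
  q : H → ℝ
  /-- costs -/
  cost : H → ℝ
  /-- budgets -/
  budget : U → ℝ
  q_pos : ∀ i, 0 < q i
  cost_pos : ∀ i, 0 < cost i
  budget_pos : ∀ j, 0 < budget j

variable {U H : Type} [Fintype U] [DecidableEq U] [DecidableEq H]

/-- `s` is a feasible strategy of agent `j`. -/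
def Feasible (I : Inst U H) (j : U) (s : Finset H) : Prop :=
  (∀ i ∈ s, I.adj i j) ∧ ∑ i ∈ s, I.cost i ≤ I.budget j

/-- A state gives every agent a feasible strategy. -/
def IsState (I : Inst U H) (S : U → Finset H) : Prop := ∀ j, Feasible I j (S j)

/-- The number of agents which use site `i`. -/
def load (S : U → Finset H) (i : H) : ℕ := (Finset.univ.filter fun j => i ∈ S j).card

/-- The payoff of agent `j`: every site is shared equally by the agents which use it. -/
noncomputable def payoff (I : Inst U H) (S : U → Finset H) (j : U) : ℝ :=
  ∑ i ∈ S j, I.q i / (load S i : ℝ)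

/-- A best-response move from `S` to `S'`: one agent `j` changes its strategy to a feasible
strategy which is optimal against the strategies of the others, and strictly gains. -/
def BRMove (I : Inst U H) (S S' : U → Finset H) : Prop :=
  ∃ j s, Feasible I j s ∧ S' = Function.update S j s ∧
    (∀ t, Feasible I j t → payoff I (Function.update S j t) j ≤ payoff I S' j) ∧
    payoff I S j < payoff I S' j

/-- There is a best-response path with exactly `L` moves. -/
def HasPath (I : Inst U H) (L : ℕ) : Prop :=
  ∃ p : ℕ → U → Finset H, (∀ k ≤ L, IsState I (p k)) ∧ ∀ k < L, BRMove I (p k) (p (k + 1))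

end Helper97_BR
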