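import Pool.Agent.Helper97_BR.Build

/-! # Every step of the counter is a best-response move -/

set_option autoImplicit false

namespace Helper97_BR

open Finset

variable {K : ℕ}

/-- weights -/
noncomputable def wt (K : ℕ) (σ : Bits) (j : Ag K) (i : Si K) : ℝ :=
  (inst K).q i / ((oth (st K σ) j i : ℝ) + 1)

theorem val_X (σ : Bits) (j : Ag K) :
    val (inst K) (st K σ) j {sX j} = wt K σ j (sX j) := by
  simp [val, wt]

theorem val_Y0 (σ : Bits) (k : Fin (K + 1)) :
    val (inst K) (st K σ) (k, 0) (sY (k, 0)) =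
      wt K σ (k, 0) (k.succ, 3) + (wt K σ (k, 0) (k.succ, 2) + wt K σ (k, 0) (k.castSucc, 4)) := by
  unfold val sY
  rw [if_pos rfl, sum_insert (by simp [Prod.ext_iff, Fin.ext_iff]),
    sum_insert (by simp [Prod.ext_iff, Fin.ext_iff]), sum_singleton]
  rfl

theorem val_Y1 (σ : Bits) (k : Fin (K + 1)) :
    val (inst K) (st K σ) (k, 1) (sY (k, 1)) =
      wt K σ (k, 1) (k.castSucc, 3) + wt K σ (k, 1) (k.castSucc, 0) := by
  unfold val sY
  rw [if_neg (by simp), if_pos rfl, sum_insert (by simp [Prod.ext_iff, Fin.ext_iff]), sum_singleton]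
  rfl

theorem val_Y2 (σ : Bits) (k : Fin (K + 1)) :
    val (inst K) (st K σ) (k, 2) (sY (k, 2)) =
      wt K σ (k, 2) (k.castSucc, 0) + wt K σ (k, 2) (k.castSucc, 5) := by
  unfold val sY
  rw [if_neg (by simp), if_neg (by simp), sum_insert (by simp [Prod.ext_iff, Fin.ext_iff]),
    sum_singleton]
  rfl

theorem q_cast (k : Fin (K + 1)) (t : Fin 6) :
    (inst K).q (k.castSucc, t) = qc t * (1 / 32) ^ k.val := rfl

theorem q_succ (k : Fin (K + 1)) (t : Fin 6) :
    (inst K).q (k.succ, t) = qc t * (1 / 32) ^ k.val / 32 := by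
  have : (inst K).q (k.succ, t) = qc t * (1 / 32) ^ (k.val + 1) := rfl
  rw [this, pow_succ]; ring

theorem qc0 : qc 0 = 1 := by simp [qc]
theorem qc1 : qc 1 = 15 / 4 := by
  unfold qc; rw [if_neg (by decide), if_pos rfl]
theorem qc2 : qc 2 = 5 := by
  unfold qc; rw [if_neg (by decide), if_neg (by decide), if_pos rfl]
theorem qc3 : qc 3 = 5 := by
  unfold qc; rw [if_neg (by decide), if_neg (by decide), if_neg (by decide), if_pos rfl]
theorem qc4 : qc 4 = 1 / 2 := by
  unfold qc
  rw [if_neg (by decide), if_neg (by decide), if_neg (by decide), if_neg (by decide), if_pos rfl]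
theorem qc5 : qc 5 = 5 / 2 := by
  unfold qc
  rw [if_neg (by decide), if_neg (by decide), if_neg (by decide), if_neg (by decide),
    if_neg (by decide)]

theorem wt_le (σ : Bits) (j : Ag K) (i : Si K) : wt K σ j i ≤ (inst K).q i := w_le _ _ _ _
theorem wt_pos (σ : Bits) (j : Ag K) (i : Si K) : 0 < wt K σ j i := w_pos _ _ _ _

theorem wt_half (σ : Bits) (j : Ag K) (i : Si K) (j' : Ag K) (h : j' ≠ j)
    (h' : i ∈ st K σ j') : wt K σ j i ≤ (inst K).q i / 2 :=
  w_half _ _ _ _ (one_le_oth _ _ _ j' h h')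

theorem wt_zero (σ : Bits) (j : Ag K) (i : Si K) (h : ∀ j', j' ≠ j → i ∉ st K σ j') :
    wt K σ j i = (inst K).q i :=
  w_zero _ _ _ _ (oth_zero _ _ _ h)

theorem mem_st (σ : Bits) (j : Ag K) (i : Si K) :
    i ∈ st K σ j ↔ (σ j.1.val j.2 = true ∧ i ∈ sY j) ∨ (σ j.1.val j.2 = false ∧ i = sX j) := by
  unfold st
  cases σ j.1.val j.2 <;> simp

theorem brMove_step (σ : Bits) (k : Fin (K + 1)) (r : Fin 3) (h : Can σ k.val r) :
    BRMove (inst K) (st K σ) (st K (flip σ k.val r)) := by
  have hR : (0 : ℝ) < (1 / 32) ^ k.val := by positivity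
  rcases h with ⟨rfl, h⟩ | ⟨rfl, hk, h⟩ | ⟨rfl, hk, h⟩
  · have hX : sX ((k, 0) : Ag K) = (k.castSucc, 0) := rfl
    rcases h with ⟨h0, h12⟩ | ⟨h0, h1, h2⟩
    · -- the output agent goes up
      refine br_up σ k 0 h0 ?_
      rw [val_X, val_Y0, hX]
      have w1 : wt K σ (k, 0) (k.castSucc, 0) ≤ (inst K).q (k.castSucc, 0) / 2 := by
        rcases h12 with h | h
        · exact wt_half σ _ _ (k, 1) (by simp) (by rw [mem_st]; left; exact ⟨h, by simp [sY]⟩)
        · exact wt_half σ _ _ (k, 2) (by simp) (by rw [mem_st]; left; exact ⟨h, by simp [sY]⟩)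
      have w2 : wt K σ (k, 0) (k.castSucc, 4) = (inst K).q (k.castSucc, 4) := by
        refine wt_zero σ _ _ ?_
        rintro ⟨k', r'⟩ hne hm
        rw [mem_st] at hm
        fin_cases r' <;> simp [sX, sY, Prod.ext_iff, Fin.ext_iff] at hm hne
        omega
      have w3 := wt_pos σ (k, 0) (k.succ, 3)
      have w4 := wt_pos σ (k, 0) (k.succ, 2)
      rw [q_cast] at w1 w2
      simp only [qc0, qc1, qc2, qc3, qc4, qc5] at w1 w2
      rw [w2]
      linarith
    · -- the output agent goes down
      refine br_down σ k 0 h0 ?_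
      rw [val_X, val_Y0, hX]
      have w1 : wt K σ (k, 0) (k.castSucc, 0) = (inst K).q (k.castSucc, 0) := by
        refine wt_zero σ _ _ ?_
        rintro ⟨k', r'⟩ hne hm
        rw [mem_st] at hm
        fin_cases r' <;> simp [sX, sY, Prod.ext_iff, Fin.ext_iff] at hm hne
        · omega
        · obtain ⟨hm1, hm2⟩ := hm
          rw [← hm2, h1] at hm1; exact absurd hm1 (by simp)
        · obtain ⟨hm1, hm2⟩ := hm
          rw [← hm2, h2] at hm1; exact absurd hm1 (by simp)
      have w2 := wt_le σ (k, 0) (k.succ, 3)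
      have w3 := wt_le σ (k, 0) (k.succ, 2)
      have w4 := wt_le σ (k, 0) (k.castSucc, 4)
      rw [q_succ] at w2 w3
      rw [q_cast] at w1 w4
      simp only [qc0, qc1, qc2, qc3, qc4, qc5] at w1 w2 w3 w4
      rw [w1]
      linarith
  · have hX : sX ((k, 1) : Ag K) = (k.castSucc, 1) := rfl
    have w1 : wt K σ (k, 1) (k.castSucc, 1) = (inst K).q (k.castSucc, 1) := by
      refine wt_zero σ _ _ ?_
      rintro ⟨k', r'⟩ hne hm
      rw [mem_st] at hm
      fin_cases r' <;> simp [sX, sY, Prod.ext_iff, Fin.ext_iff] at hm hne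
      omega
    cases hb : σ k.val 1 with
    | false =>
      refine br_up σ k 1 hb ?_
      rw [val_X, val_Y1, hX]
      have w2 : wt K σ (k, 1) (k.castSucc, 3) = (inst K).q (k.castSucc, 3) := by
        refine wt_zero σ _ _ ?_
        rintro ⟨k', r'⟩ hne hm
        rw [mem_st] at hm
        fin_cases r' <;> simp [sX, sY, Prod.ext_iff, Fin.ext_iff] at hm hne
        · obtain ⟨hm1, hm2⟩ := hm
          rw [show k'.val = k.val - 1 by omega, ← h, hb] at hm1
          exact absurd hm1 (by simp)
        · omega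
      have w3 := wt_pos σ (k, 1) (k.castSucc, 0)
      rw [q_cast] at w1 w2
      simp only [qc0, qc1, qc2, qc3, qc4, qc5] at w1 w2
      rw [w1, w2]
      linarith
    | true =>
      refine br_down σ k 1 hb ?_
      rw [val_X, val_Y1, hX]
      have hk1 : k.val - 1 < K + 1 := by omega
      have w2 : wt K σ (k, 1) (k.castSucc, 3) ≤ (inst K).q (k.castSucc, 3) / 2 := by
        refine wt_half σ _ _ (⟨k.val - 1, hk1⟩, 0) (by simp) ?_
        rw [mem_st]; left
        refine ⟨by rw [← h]; exact hb, ?_⟩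
        simp only [sY, if_true, mem_insert, Prod.ext_iff, Fin.ext_iff]
        left
        simp
        omega
      have w3 := wt_le σ (k, 1) (k.castSucc, 0)
      rw [q_cast] at w1 w2 w3
      simp only [qc0, qc1, qc2, qc3, qc4, qc5] at w1 w2 w3
      rw [w1]
      linarith
  · have hX : sX ((k, 2) : Ag K) = (k.castSucc, 2) := rfl
    have w5 : wt K σ (k, 2) (k.castSucc, 5) = (inst K).q (k.castSucc, 5) := by
      refine wt_zero σ _ _ ?_
      rintro ⟨k', r'⟩ hne hm
      rw [mem_st] at hm
      fin_cases r' <;> simp [sX, sY, Prod.ext_iff, Fin.ext_iff] at hm hne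
      omega
    cases hb : σ k.val 2 with
    | false =>
      have hp : σ (k.val - 1) 0 = true := by
        cases hh : σ (k.val - 1) 0
        · exact absurd (hb.trans hh.symm) h
        · rfl
      refine br_up σ k 2 hb ?_
      rw [val_X, val_Y2, hX]
      have hk1 : k.val - 1 < K + 1 := by omega
      have w2 : wt K σ (k, 2) (k.castSucc, 2) ≤ (inst K).q (k.castSucc, 2) / 2 := by
        refine wt_half σ _ _ (⟨k.val - 1, hk1⟩, 0) (by simp) ?_
        rw [mem_st]; left
        refine ⟨hp, ?_⟩
        simp only [sY, if_true, mem_insert, Prod.ext_iff, Fin.ext_iff]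
        right; left
        simp
        omega
      have w3 := wt_pos σ (k, 2) (k.castSucc, 0)
      rw [q_cast] at w2 w5
      simp only [qc0, qc1, qc2, qc3, qc4, qc5] at w2 w5
      rw [w5]
      linarith
    | true =>
      have hp : σ (k.val - 1) 0 = false := by
        cases hh : σ (k.val - 1) 0
        · rfl
        · exact absurd (hb.trans hh.symm) h
      refine br_down σ k 2 hb ?_
      rw [val_X, val_Y2, hX]
      have w2 : wt K σ (k, 2) (k.castSucc, 2) = (inst K).q (k.castSucc, 2) := by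
        refine wt_zero σ _ _ ?_
        rintro ⟨k', r'⟩ hne hm
        rw [mem_st] at hm
        fin_cases r' <;> simp [sX, sY, Prod.ext_iff, Fin.ext_iff] at hm hne
        · obtain ⟨hm1, hm2⟩ := hm
          rw [show k'.val = k.val - 1 by omega, hp] at hm1
          exact absurd hm1 (by simp)
        · omega
      have w3 := wt_le σ (k, 2) (k.castSucc, 0)
      rw [q_cast] at w2 w3 w5
      simp only [qc0, qc1, qc2, qc3, qc4, qc5] at w2 w3 w5
      rw [w2, w5]
      linarith

theorem path_states {n : ℕ} {σ τ : Bits} (h : Path (Step K) n σ τ) :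
    Path (fun S S' => BRMove (inst K) S S') n (st K σ) (st K τ) := by
  induction h with
  | nil s => exact Path.nil _
  | @cons n s t u h1 _ ih =>
    obtain ⟨k, r, hk, hC, rfl⟩ := h1
    exact Path.cons (brMove_step s ⟨k, by omega⟩ r hC) ih

theorem isState_of_brMove {U H : Type} [Fintype U] [DecidableEq U] [DecidableEq H]
    (I : Inst U H) {S S' : U → Finset H} (h : IsState I S) (h' : BRMove I S S') :
    IsState I S' := by
  obtain ⟨j, s, hs, rfl, -, -⟩ := h'
  intro k
  by_cases hk : k = j
  · subst hk; rw [Function.update_self]; exact hs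
  · rw [Function.update_of_ne hk]; exact h k

theorem hasPath (K : ℕ) : ∃ n, 2 ^ K ≤ n ∧ HasPath (inst K) n := by
  obtain ⟨n, σ, τ, hn, hp⟩ := exists_path K
  obtain ⟨p, h0, hp'⟩ := (path_states hp).toFun
  refine ⟨n, hn, p, ?_, hp'⟩
  intro k
  induction k with
  | zero => intro _; rw [h0]; exact isState_st σ
  | succ k ih => intro hk; exact isState_of_brMove _ (ih (by omega)) (hp' k (by omega))

end Helper97_BR
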